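import Pool.Agent.Q35.TT.Stm

/-!
Project TT: only finitely many rational points are torsion in both directions.
-/

set_option autoImplicit false

open Pool.Agent.Y720.MZ Height AdmissibleAbsValues

namespace Pool.Agent.Q208.TT

open Pool.Agent.Q35.TT

/-- One local inequality. -/
lemma loc_aux {K : Type} [Field K] (v : AbsoluteValue K ℝ) (Cv C'' N n z u : ℝ) (s t : K)
    (y : K) (hy : y = 1 ∨ y = s) (b : K) (hC0 : 0 ≤ Cv) (hn0 : 0 ≤ n) (hu0 : 0 ≤ u)
    (hC : Cv ≤ C'') (hn : n ≤ N) (hz : z = v (b ^ 2 * y ^ 2))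
    (h : v b ^ 2 ≤ Cv * n * u * max 1 (v s) ^ 2 * max 1 (v t) ^ 4) :
    z ≤ C'' * N * u * max 1 (v s) ^ 4 * max 1 (v t) ^ 4 := by
  have hy1 : v y ≤ max 1 (v s) := by
    rcases hy with rfl | rfl
    · rw [map_one]
      exact le_max_left _ _
    · exact le_max_right _ _
  have hs : (0 : ℝ) ≤ max 1 (v s) := zero_le_one.trans (le_max_left _ _)
  have ht : (0 : ℝ) ≤ max 1 (v t) := zero_le_one.trans (le_max_left _ _)
  have hy2 : v y ^ 2 ≤ max 1 (v s) ^ 2 := pow_le_pow_left₀ (v.nonneg y) hy1 2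
  rw [hz, map_mul, map_pow, map_pow]
  have hN : 0 ≤ N := hn0.trans hn
  calc v b ^ 2 * v y ^ 2
      ≤ (Cv * n * u * max 1 (v s) ^ 2 * max 1 (v t) ^ 4) * max 1 (v s) ^ 2 :=
        mul_le_mul h hy2 (by positivity) (by positivity)
    _ = (Cv * n) * (u * max 1 (v s) ^ 4 * max 1 (v t) ^ 4) := by ring
    _ ≤ (C'' * N) * (u * max 1 (v s) ^ 4 * max 1 (v t) ^ 4) :=
        mul_le_mul_of_nonneg_right (mul_le_mul hC hn hn0 (hC0.trans hC)) (by positivity)
    _ = _ := by ring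

/-- THA. -/
theorem tha (h1 : S_GLO) (h2 : S_ORD) (h3 : S_PRO) (h4 : S_NSH) : S_THA := by
  intro K _ _ c hc
  obtain ⟨c', hc'⟩ : ∃ c' : Fin 5 → Fin 5 → K, c' = fun i j => c j i := ⟨_, rfl⟩
  have hcx : ∀ y, cx c' y = cy c y := fun y => by rw [hc']; rfl
  have hF : ∀ x y : Fin 2 → K, F4 c' y x = F4 c x y := by
    intro x y
    rw [hc']
    simp only [F4, bq, cx]
    ring
  obtain ⟨C, hC1, hCf, hC⟩ := h1 K c
  obtain ⟨C', hC'1, hC'f, hC'⟩ := h1 K c'
  obtain ⟨A, hA0, hA⟩ := h2 K c (4 * totalWeight K)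
  obtain ⟨A', hA'0, hA'⟩ := h2 K c' (4 * totalWeight K)
  obtain ⟨D, hD0, hD⟩ := h3 K (fun v => max (C v) (C' v))
    (fun v => (hC1 v).trans (le_max_left _ _)) ((hCf.union hC'f).subset (by
      rintro v ⟨hv, hv1⟩
      by_cases h : C v = 1
      · right
        refine ⟨hv, fun h' => hv1 ?_⟩
        show max (C v) (C' v) = 1
        rw [h, h', max_self]
      · left
        exact ⟨hv, h⟩))
  obtain ⟨E, hE0, hE⟩ := h4 K c hc
  have hfin := NumberField.finite_setOfPred_mulHeight₁_le (K := K) (D / E * (A + A'))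
  refine (hfin.prod hfin).subset ?_
  rintro ⟨s, t⟩ ⟨⟨w0, n0, hn0, hT0⟩, ⟨w1, n1, hn1, hT1⟩⟩
  have hT1' : Tor (cx c' ![1, s]) t w1 n1 := by
    rw [hcx]
    exact hT1
  obtain ⟨n, hn, hT, hnb⟩ := hA s t w0 n0 hn0 hT0
  obtain ⟨n', hn', hT', hnb'⟩ := hA' t s w1 n1 hn1 hT1'
  set u : K := F4 c ![1, s] ![1, t] with hu
  have hu0 : u ≠ 0 := by
    have h5 : w0 ^ 2 = u := hT0.2.1
    rw [← h5]
    exact pow_ne_zero 2 hT0.1
  obtain ⟨m, hm⟩ : ∃ m : ℕ, m = max n n' := ⟨_, rfl⟩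
  have hm1 : 1 ≤ m := by
    have := le_max_left n n'
    omega
  have hmn : ((n : ℝ)) ^ 4 ≤ (m : ℝ) ^ 4 :=
    pow_le_pow_left₀ (Nat.cast_nonneg _) (by rw [hm]; exact_mod_cast le_max_left _ _) 4
  have hmn' : ((n' : ℝ)) ^ 4 ≤ (m : ℝ) ^ 4 :=
    pow_le_pow_left₀ (Nat.cast_nonneg _) (by rw [hm]; exact_mod_cast le_max_right _ _) 4
  have hm1' : (1 : ℝ) ≤ (m : ℝ) ^ 4 := one_le_pow₀ (by exact_mod_cast hm1)
  have hx : ∀ (a : K) (k : Fin 2), (![1, a] : Fin 2 → K) k = 1 ∨ (![1, a] : Fin 2 → K) k = a := by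
    intro a k
    fin_cases k
    · left; rfl
    · right; rfl
  have hkey := hD ((Fin 2 × Fin 2) ⊕ (Fin 2 × Fin 2)) (ZA c ![1, s] ![1, t]) u s t 4 4
    ((m : ℝ) ^ 4) (hE s t).1 hu0 hm1' (by
      intro v hv i
      rcases i with k | k
      · exact loc_aux v (C v) _ _ ((n : ℝ) ^ 4) _ (v u) s t _ (hx s k.2) _
          (zero_le_one.trans (hC1 v)) (by positivity) (v.nonneg _) (le_max_left _ _) hmn rfl
          ((hC s t w0 n hn hT k.1).1 v hv)
      · have h5 := (hC' t s w1 n' hn' hT' k.1).1 v hv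
        rw [hF, hcx] at h5
        have h6 := loc_aux v (C' v) (max (C v) (C' v)) ((m : ℝ) ^ 4) ((n' : ℝ) ^ 4) _ (v u) t s _
          (hx t k.2) _ (zero_le_one.trans (hC'1 v)) (by positivity) (v.nonneg _)
          (le_max_right _ _) hmn' rfl h5
        refine h6.trans (le_of_eq ?_)
        ring) (by
      intro v hv i
      rcases i with k | k
      · have h5 := (hC s t w0 n hn hT k.1).2 v hv
        have h6 := loc_aux v (C v) (max (C v) (C' v)) 1 1 _ (v u) s t _ (hx s k.2) _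
          (zero_le_one.trans (hC1 v)) zero_le_one (v.nonneg _) (le_max_left _ _) le_rfl rfl
          (by rw [mul_one]; exact h5)
        rw [mul_one] at h6
        exact h6
      · have h5 := (hC' t s w1 n' hn' hT' k.1).2 v hv
        rw [hF, hcx] at h5
        have h6 := loc_aux v (C' v) (max (C v) (C' v)) 1 1 _ (v u) t s _
          (hx t k.2) _ (zero_le_one.trans (hC'1 v)) zero_le_one (v.nonneg _)
          (le_max_right _ _) le_rfl rfl (by rw [mul_one]; exact h5)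
        rw [mul_one] at h6
        refine h6.trans (le_of_eq ?_)
        ring)
  set P : ℝ := mulHeight₁ s with hP
  set Q : ℝ := mulHeight₁ t with hQ
  have hP1 : 1 ≤ P := one_le_mulHeight₁ s
  have hQ1 : 1 ≤ Q := one_le_mulHeight₁ t
  have h5 : E * (P * Q) ^ 8 ≤ D * ((m : ℝ) ^ 4) ^ totalWeight K * P ^ 4 * Q ^ 4 :=
    (hE s t).2.trans hkey
  have h6 : ((m : ℝ) ^ 4) ^ totalWeight K ≤ (A + A') * (P * Q) := by
    rw [← pow_mul]
    rcases le_total n n' with h | h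
    · rw [hm, max_eq_right h]
      refine hnb'.trans ?_
      have h7 : P ≤ P * Q := le_mul_of_one_le_right (by linarith) hQ1
      calc A' * P ≤ A' * (P * Q) := mul_le_mul_of_nonneg_left h7 hA'0.le
        _ ≤ (A + A') * (P * Q) := mul_le_mul_of_nonneg_right (by linarith) (by positivity)
    · rw [hm, max_eq_left h]
      refine hnb.trans ?_
      have h7 : Q ≤ P * Q := le_mul_of_one_le_left (by linarith) hP1
      calc A * Q ≤ A * (P * Q) := mul_le_mul_of_nonneg_left h7 hA0.le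
        _ ≤ (A + A') * (P * Q) := mul_le_mul_of_nonneg_right (by linarith) (by positivity)
  have hPQ : 1 ≤ P * Q := one_le_mul_of_one_le_of_one_le hP1 hQ1
  have h8 : E * (P * Q) ^ 8 ≤ (D * (A + A')) * (P * Q) ^ 5 := by
    calc E * (P * Q) ^ 8 ≤ D * ((m : ℝ) ^ 4) ^ totalWeight K * P ^ 4 * Q ^ 4 := h5
      _ = D * ((m : ℝ) ^ 4) ^ totalWeight K * (P * Q) ^ 4 := by ring
      _ ≤ D * ((A + A') * (P * Q)) * (P * Q) ^ 4 :=
          mul_le_mul_of_nonneg_right (mul_le_mul_of_nonneg_left h6 hD0.le) (by positivity)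
      _ = _ := by ring
  have h9 : P * Q ≤ D / E * (A + A') := by
    have h10 : E * (P * Q) ≤ D * (A + A') := by
      have h11 : E * (P * Q) * (P * Q) ^ 5 ≤ (D * (A + A')) * (P * Q) ^ 5 := by
        refine le_trans ?_ h8
        have h12 : (P * Q) ^ 6 ≤ (P * Q) ^ 8 := pow_le_pow_right₀ hPQ (by norm_num)
        calc E * (P * Q) * (P * Q) ^ 5 = E * (P * Q) ^ 6 := by ring
          _ ≤ E * (P * Q) ^ 8 := mul_le_mul_of_nonneg_left h12 hE0.le
      exact le_of_mul_le_mul_right h11 (by positivity)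
    rw [div_mul_eq_mul_div, le_div_iff₀ hE0]
    linarith
  refine ⟨?_, ?_⟩
  · exact (le_mul_of_one_le_right (by linarith) hQ1).trans h9
  · exact (le_mul_of_one_le_left (by linarith) hP1).trans h9

end Pool.Agent.Q208.TT
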